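import Pool.Agent.V1193.TreeRK

/-!
# Conditions (a') and (b) are equivalent

If `μ` has finite mass `M`, cut the tree at a median vertex `m`: every component of `T ∖ {m}` has mass
at most `M / 2`. Applying (a') to the sums `∑_{α ∈ [m, x]} φ(α)` cut off to one component at a time gives
`M ∫ (∑_{α ∈ [m, x]} φ(α)) ^ 2 dμ(x) ≤ 6 C ‖φ‖ ^ 2`, and this gives (b). If `μ` has infinite mass, (a')
forces `μ` to be concentrated at one vertex.
-/

set_option autoImplicit false

namespace Pool.Agent.Results.MP_efe325_an.AbsKernel

open MeasureTheory Pool.Agent.V1193.Tree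

/-- For every positive measure `μ` on the set of vertices of the dyadic tree, and for real as well as
for complex functions, condition (a') holds if and only if condition (b) holds. -/
theorem result (𝕜 : Type) [RCLike 𝕜] (μ : Measure Vertex) : CondA 𝕜 μ ↔ CondB 𝕜 μ :=
  ⟨condA_imp_condB, condB_imp_condA⟩

end Pool.Agent.Results.MP_efe325_an.AbsKernel
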